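import Mathlib

/-!
# Trees given by a parent function
-/

set_option autoImplicit false

namespace Pool.Agent.X56

/-- The graph on `V` in which every vertex other than the root `r` is joined to its parent. -/
def parentGraph {V : Type*} (r : V) (par : V → V) (rk : V → ℕ)
    (h : ∀ v, v ≠ r → rk (par v) < rk v) : SimpleGraph V where
  Adj u v := (u ≠ r ∧ par u = v) ∨ (v ≠ r ∧ par v = u)
  symm := ⟨fun _ _ h => h.symm⟩
  loopless := ⟨fun v hv => by
    have : v ≠ r ∧ par v = v := by rcases hv with hv | hv <;> exact hv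
    have h1 := h v this.1
    rw [this.2] at h1
    exact lt_irrefl _ h1⟩

variable {V : Type*} {r : V} {par : V → V} {rk : V → ℕ} {h : ∀ v, v ≠ r → rk (par v) < rk v}

lemma parentGraph_adj {u v : V} :
    (parentGraph r par rk h).Adj u v ↔ (u ≠ r ∧ par u = v) ∨ (v ≠ r ∧ par v = u) := Iff.rfl

lemma parentGraph_adj_par {u : V} (hu : u ≠ r) : (parentGraph r par rk h).Adj u (par u) :=
  Or.inl ⟨hu, rfl⟩

lemma parentGraph_reachable (n : ℕ) : ∀ v, rk v ≤ n → (parentGraph r par rk h).Reachable v r := by
  induction n with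
  | zero =>
    intro v hv
    by_cases hr : v = r
    · rw [hr]
    · have := h v hr
      omega
  | succ n ih =>
    intro v hv
    by_cases hr : v = r
    · rw [hr]
    · have h1 := h v hr
      exact (SimpleGraph.Adj.reachable (parentGraph_adj_par hr)).trans (ih _ (by omega))

lemma parentGraph_connected : (parentGraph r par rk h).Connected := by
  have : Nonempty V := ⟨r⟩
  exact SimpleGraph.Connected.mk (fun u v =>
    (parentGraph_reachable (rk u) u le_rfl).trans (parentGraph_reachable (rk v) v le_rfl).symm)

lemma parentGraph_isTree [Finite V] : (parentGraph r par rk h).IsTree := by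
  rw [SimpleGraph.isTree_iff_connected_and_card]
  refine ⟨parentGraph_connected, ?_⟩
  have e : {v : V // v ≠ r} ≃ (parentGraph r par rk h).edgeSet := by
    refine Equiv.ofBijective (fun v => ⟨s(v.1, par v.1), ?_⟩) ⟨?_, ?_⟩
    · rw [SimpleGraph.mem_edgeSet]
      exact parentGraph_adj_par v.2
    · rintro ⟨v, hv⟩ ⟨w, hw⟩ heq
      have h1 : s(v, par v) = s(w, par w) := congrArg Subtype.val heq
      rw [Sym2.eq_iff] at h1
      rcases h1 with ⟨h1, _⟩ | ⟨h1, h2⟩
      · exact Subtype.ext h1
      · exfalso
        have h3 := h v hv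
        have h4 := h w hw
        rw [h2] at h3
        rw [← h1] at h4
        omega
    · rintro ⟨e, he⟩
      induction e using Sym2.ind with
      | _ u v =>
        rw [SimpleGraph.mem_edgeSet, parentGraph_adj] at he
        rcases he with ⟨h1, h2⟩ | ⟨h1, h2⟩
        · subst h2; exact ⟨⟨u, h1⟩, rfl⟩
        · subst h2; exact ⟨⟨v, h1⟩, Subtype.ext Sym2.eq_swap⟩
  rw [← Nat.card_congr e]
  have h5 : Nat.card {v : V // v ≠ r} + Nat.card {v : V // v = r} = Nat.card V := by
    classical
    have := Fintype.ofFinite V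
    rw [Nat.card_eq_fintype_card, Nat.card_eq_fintype_card, Nat.card_eq_fintype_card]
    have := Fintype.card_subtype_compl (fun v : V => v = r)
    have h6 : Fintype.card {v : V // v = r} ≤ Fintype.card V := Fintype.card_subtype_le _
    have h7 : Fintype.card {v : V // v ≠ r} = Fintype.card V - Fintype.card {v : V // v = r} := this
    omega
  have h8 : Nat.card {v : V // v = r} = 1 := by
    have : Unique {v : V // v = r} := ⟨⟨⟨r, rfl⟩⟩, fun v => Subtype.ext v.2⟩
    exact Nat.card_unique
  omega

/-- An inner vertex of a path has two distinct neighbours. -/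
lemma inner_two_nbrs {G : SimpleGraph V} {u v x : V} (p : G.Walk u v) (hp : p.IsPath)
    (hx : x ∈ p.support) (hu : x ≠ u) (hv : x ≠ v) : ∃ y z, y ≠ z ∧ G.Adj x y ∧ G.Adj x z := by
  classical
  have h1 : ¬ (p.takeUntil x hx).Nil := by
    intro hn
    exact hu hn.eq.symm
  have h2 : ¬ (p.dropUntil x hx).Nil := by
    intro hn
    exact hv hn.eq
  have hy := SimpleGraph.Walk.adj_penultimate h1
  have hz := SimpleGraph.Walk.adj_snd h2
  refine ⟨_, _, ?_, hy.symm, hz⟩
  intro heq
  have hsupp : p.support = (p.takeUntil x hx).support ++ (p.dropUntil x hx).support.tail := by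
    rw [← SimpleGraph.Walk.support_append, SimpleGraph.Walk.take_spec]
  have hnd := hp.support_nodup
  rw [hsupp] at hnd
  have h3 := (List.nodup_append.1 hnd).2.2 (p.takeUntil x hx).penultimate
    (SimpleGraph.Walk.getVert_mem_support _ _) (p.dropUntil x hx).snd
    (SimpleGraph.Walk.snd_mem_tail_support h2)
  exact h3 heq

end Pool.Agent.X56
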