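import Mathlib

/-!
Digit reversal `rev`, the add-or-subtract map `T`, and a kernel-checkable version of both.
-/

namespace Pool.Agent.X56.RevCyc

/-- Digit reversal in base ten: read the decimal digits of `D` in reverse order. -/
def rev (D : ℕ) : ℕ := Nat.ofDigits 10 (Nat.digits 10 D).reverse

/-- The add-or-subtract digit reversal map. -/
def T (D : ℕ) : ℕ := if rev D < D then D - rev D else D + rev D

/-- Reversal with fuel and an accumulator. -/
def revAux : ℕ → ℕ → ℕ → ℕ
  | 0, _, acc => acc
  | f + 1, x, acc => bif Nat.beq x 0 then acc else revAux f (x / 10) (acc * 10 + x % 10)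

theorem ofDigits_append_rev (l : List ℕ) (d : ℕ) :
    Nat.ofDigits 10 (l.reverse ++ [d]) = Nat.ofDigits 10 l.reverse + 10 ^ l.length * d := by
  rw [Nat.ofDigits_append]
  simp

theorem revAux_eq (f : ℕ) : ∀ x acc : ℕ, x < 10 ^ f →
    revAux f x acc = acc * 10 ^ (Nat.digits 10 x).length +
      Nat.ofDigits 10 (Nat.digits 10 x).reverse := by
  induction f with
  | zero =>
      intro x acc hx
      have : x = 0 := by simpa using hx
      subst this
      simp [revAux, Nat.ofDigits]
  | succ f ih =>
      intro x acc hx
      by_cases h0 : x = 0
      · subst h0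
        simp [revAux, Nat.ofDigits]
      · have hb : Nat.beq x 0 = false := by
          cases hx' : Nat.beq x 0 with
          | false => rfl
          | true => exact absurd (Nat.eq_of_beq_eq_true hx') h0
        have hlt : x / 10 < 10 ^ f := by
          rw [Nat.div_lt_iff_lt_mul (by norm_num)]
          calc x < 10 ^ (f + 1) := hx
            _ = 10 ^ f * 10 := by ring
        rw [revAux, hb, cond_false, ih _ _ hlt]
        have hd : Nat.digits 10 x = (x % 10) :: Nat.digits 10 (x / 10) :=
          Nat.digits_def' (by norm_num) (Nat.pos_of_ne_zero h0)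
        rw [hd, List.reverse_cons, Nat.ofDigits_append, List.length_cons, List.length_reverse,
          Nat.ofDigits_singleton, pow_succ]
        ring

/-- The kernel-friendly map. -/
def T' (F D : ℕ) : ℕ :=
  bif Nat.ble D (revAux F D 0) then D + revAux F D 0 else D - revAux F D 0

theorem T'_eq {F D : ℕ} (h : D < 10 ^ F) : T' F D = T D := by
  have hr : revAux F D 0 = rev D := by
    rw [revAux_eq F D 0 h, rev]; simp
  unfold T' T
  rw [hr]
  by_cases hlt : rev D < D
  · have : Nat.ble D (rev D) = false := by
      cases hb : Nat.ble D (rev D) with
      | false => rfl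
      | true => exact absurd (Nat.le_of_ble_eq_true hb) (not_le.mpr hlt)
    rw [this, cond_false, if_pos hlt]
  · have : Nat.ble D (rev D) = true := Nat.ble_eq_true_of_le (not_lt.mp hlt)
    rw [this, cond_true, if_neg hlt]

/-- `run F B D x n` checks that `x < B`, and that the next `n` iterates of `x` are below `B` and
different from `D`, and that the one after them is `D`. -/
def run (F B D : ℕ) : ℕ → ℕ → Bool
  | x, 0 => Nat.blt x B && Nat.beq (T' F x) D
  | x, n + 1 => Nat.blt x B && (!(Nat.beq (T' F x) D)) && run F B D (T' F x) n

theorem run_spec {F B D : ℕ} (hB : B ≤ 10 ^ F) : ∀ (n x : ℕ), run F B D x n = true →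
    T^[n + 1] x = D ∧ ∀ k, 0 < k → k < n + 1 → T^[k] x ≠ D := by
  intro n
  induction n with
  | zero =>
      intro x h
      simp only [run, Bool.and_eq_true] at h
      have hx : x < B := by
        have := h.1
        simpa [Nat.blt] using Nat.le_of_ble_eq_true this
      have h2 : T' F x = D := Nat.eq_of_beq_eq_true h.2
      rw [T'_eq (lt_of_lt_of_le hx hB)] at h2
      refine ⟨by simpa using h2, ?_⟩
      intro k hk hk1
      omega
  | succ n ih =>
      intro x h
      simp only [run, Bool.and_eq_true] at h
      have hx : x < B := by
        have := h.1.1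
        simpa [Nat.blt] using Nat.le_of_ble_eq_true this
      have hne : T' F x ≠ D := by
        intro he
        have := h.1.2
        rw [he] at this
        simp at this
      have hT : T' F x = T x := T'_eq (lt_of_lt_of_le hx hB)
      rw [hT] at hne
      have h3 := h.2
      rw [hT] at h3
      obtain ⟨e, g⟩ := ih (T x) h3
      refine ⟨?_, ?_⟩
      · rw [Function.iterate_succ_apply]
        exact e
      · intro k hk hk1
        rcases k with _ | k
        · omega
        · rw [Function.iterate_succ_apply]
          rcases k with _ | k
          · simpa using hne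
          · exact g (k + 1) (by omega) (by omega)

end Pool.Agent.X56.RevCyc
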